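import Pool.Agent.Q51.SZ.Stm
import Pool.Agent.Y157.PS.Tools

/-!
# Project SZ (helper51), JOB GD: almost all primes are good

Owner helper182.
-/

set_option autoImplicit false

namespace Pool.Agent.Q182.SZ

open Polynomial
open Pool.Agent.Y157.PS
open Pool.Agent.Q51.SZ

theorem int_mem {A : Type} [Field A] (V : ValuationSubring A) (c : ℤ) : (c : A) ∈ V :=
  intCast_mem V c

/-- an integer prime to `l` is a unit of `V` -/
theorem isU_int {A : Type} [Field A] (V : ValuationSubring A) {l : ℕ} (hl : l.Prime)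
    (hV : (l : A) ∈ V.nonunits) {c : ℤ} (hc : ¬ (l : ℤ) ∣ c) : IsU V (c : A) := by
  apply isU_of_not_nonunit (int_mem V c)
  intro h
  have hco : IsCoprime c (l : ℤ) := by
    have := (Nat.prime_iff_prime_int.1 hl).coprime_iff_not_dvd.2 hc
    exact this.symm
  obtain ⟨u, v, huv⟩ := hco
  have h1 : (u : A) * (c : A) + (v : A) * (l : A) = 1 := by
    have := congrArg (Int.cast : ℤ → A) huv
    push_cast at this
    exact this
  have h2 : (1 : A) ∈ V.nonunits := by
    rw [← h1]
    exact non_add (non_mul (int_mem V u) h) (non_mul (int_mem V v) hV)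
  exact (isU_one (V := V)).not_nonunit h2

/-- an integral combination of `f` and `f'` -/
theorem bezout (f : ℤ[X]) (hf : Irreducible (f.map (Int.castRingHom ℚ))) :
    ∃ (P Q : ℤ[X]) (N : ℤ), N ≠ 0 ∧ P * f + Q * derivative f = C N := by
  have hsep : (f.map (Int.castRingHom ℚ)).Separable := hf.separable
  obtain ⟨a, b, hab⟩ := hsep
  obtain ⟨d1, m1, h1⟩ := IsLocalization.integerNormalization_spec (nonZeroDivisors ℤ) a
  obtain ⟨d2, m2, h2⟩ := IsLocalization.integerNormalization_spec (nonZeroDivisors ℤ) b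
  set a' := IsLocalization.integerNormalization (nonZeroDivisors ℤ) a
  set b' := IsLocalization.integerNormalization (nonZeroDivisors ℤ) b
  have hd1 : d1 ≠ 0 := nonZeroDivisors.ne_zero m1
  have hd2 : d2 ≠ 0 := nonZeroDivisors.ne_zero m2
  refine ⟨C (d2 : ℤ) * a', C (d1 : ℤ) * b', d1 * d2, mul_ne_zero hd1 hd2, ?_⟩
  apply map_injective (Int.castRingHom ℚ) (Int.cast_injective)
  have e1 : (algebraMap ℤ ℚ) = Int.castRingHom ℚ := rfl
  rw [e1] at h1 h2
  have k1 : map (Int.castRingHom ℚ) a' = C ((d1 : ℤ) : ℚ) * a := by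
    rw [h1, Algebra.smul_def]
    rfl
  have k2 : map (Int.castRingHom ℚ) b' = C ((d2 : ℤ) : ℚ) * b := by
    rw [h2, Algebra.smul_def]
    rfl
  rw [Polynomial.map_add, Polynomial.map_mul, Polynomial.map_mul, Polynomial.map_mul,
    Polynomial.map_mul, map_C, map_C, map_C, k1, k2]
  rw [derivative_map] at hab
  simp only [eq_intCast, Int.cast_mul, C_mul]
  linear_combination (C ((d1 : ℤ) : ℚ) * C ((d2 : ℤ) : ℚ)) * hab

theorem gd : S_GD := by
  intro f hf q B0 hq hB0
  obtain ⟨P, Q, N, hN, hPQ⟩ := bezout f hf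
  have hf0 : f ≠ 0 := by
    intro h
    rw [h, Polynomial.map_zero] at hf
    exact hf.ne_zero rfl
  have hlc : f.leadingCoeff ≠ 0 := leadingCoeff_ne_zero.2 hf0
  refine ⟨B0 * q * f.leadingCoeff.natAbs * N.natAbs, ⟨q * f.leadingCoeff.natAbs * N.natAbs, by ring⟩,
    ⟨B0 * f.leadingCoeff.natAbs * N.natAbs, by ring⟩, ?_⟩
  intro A _ _ _
  set B := B0 * q * f.leadingCoeff.natAbs * N.natAbs with hB
  have hlcU : ∀ (l : ℕ) (V : ValuationSubring A), At A B l V → IsU V (f.leadingCoeff : A) := by
    intro l V h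
    apply isU_int V h.pr h.ab
    intro hd
    apply h.nd
    have h1 : l ∣ f.leadingCoeff.natAbs := Int.natCast_dvd.1 hd
    exact (h1.mul_left (B0 * q)).mul_right _
  have hNU : ∀ (l : ℕ) (V : ValuationSubring A), At A B l V → IsU V (N : A) := by
    intro l V h
    apply isU_int V h.pr h.ab
    intro hd
    apply h.nd
    have h1 : l ∣ N.natAbs := Int.natCast_dvd.1 hd
    exact h1.mul_left _
  have hroot : ∀ i : Rt f A, (f.map (Int.castRingHom A)).eval i.1 = 0 := fun i => (mem_rts.1 i.2).2
  have hint : ∀ (l : ℕ) (V : ValuationSubring A), At A B l V → ∀ i : Rt f A, i.1 ∈ V := by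
    intro l V h i
    obtain ⟨h0, h1, h2⟩ := hlcU l V h
    have hg : (f.map (Int.castRingHom V)).map (algebraMap V A) = f.map (Int.castRingHom A) := by
      rw [Polynomial.map_map]
      congr 1
    have hinj : Function.Injective (algebraMap V A) := Subtype.val_injective
    have hlc' : (f.map (Int.castRingHom V)).leadingCoeff = (f.leadingCoeff : V) := by
      apply hinj
      have hi : Function.Injective (Int.castRingHom V) := by
        intro a b hab
        have : ((a : V) : A) = ((b : V) : A) := congrArg _ hab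
        push_cast at this
        exact_mod_cast this
      rw [leadingCoeff_map_of_injective hi]
      rfl
    have hmon : (C (⟨(f.leadingCoeff : A)⁻¹, h2⟩ : V) * f.map (Int.castRingHom V)).Monic := by
      apply monic_C_mul_of_mul_leadingCoeff_eq_one
      rw [hlc']
      apply hinj
      show (f.leadingCoeff : A)⁻¹ * ((f.leadingCoeff : V) : A) = 1
      push_cast
      exact inv_mul_cancel₀ h0
    have hI : IsIntegral V i.1 := by
      refine ⟨_, hmon, ?_⟩
      rw [eval₂_mul, eval₂_eq_eval_map (f := (algebraMap V A)) (p := f.map _), hg, hroot i, mul_zero]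
    obtain ⟨y, hy⟩ := (IsIntegrallyClosed.isIntegral_iff (R := V) (K := A)).1 hI
    rw [← hy]
    exact y.2
  refine ⟨?_, ?_, hlcU, hint, ?_, ?_⟩
  · simp only [hB, ne_eq, mul_eq_zero, Int.natAbs_eq_zero, not_or]
    exact ⟨⟨⟨hB0, hq⟩, hlc⟩, hN⟩
  · intro l _ hnd h
    apply hnd
    rw [h]
    exact ⟨B0 * f.leadingCoeff.natAbs * N.natAbs, by rw [hB]; ring⟩
  · -- the differences of the zeros
    intro l V h i j hij
    have hi := hint l V h i
    have hj := hint l V h j
    have hg : (f.map (Int.castRingHom V)).map (algebraMap V A) = f.map (Int.castRingHom A) := by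
      rw [Polynomial.map_map]
      congr 1
    have hinj : Function.Injective (algebraMap V A) := Subtype.val_injective
    set g := f.map (Int.castRingHom V) with hgdef
    have hr : ∀ (k : Rt f A) (hk : k.1 ∈ V), g.IsRoot ⟨k.1, hk⟩ := by
      intro k hk
      apply hinj
      rw [map_zero, ← hroot k, ← hg, eval_map_algebraMap]
      exact (aeval_algebraMap_apply A (⟨k.1, hk⟩ : V) g).symm
    obtain ⟨g1, hg1⟩ := dvd_iff_isRoot.2 (hr i hi)
    have hr1 : g1.IsRoot ⟨j.1, hj⟩ := by
      have h1 := hr j hj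
      rw [IsRoot, hg1, eval_mul, eval_sub, eval_X, eval_C] at h1
      rcases mul_eq_zero.1 h1 with h2 | h2
      · exfalso
        apply hij
        have : (⟨j.1, hj⟩ : V) = ⟨i.1, hi⟩ := sub_eq_zero.1 h2
        have h3 : j.1 = i.1 := congrArg (fun v : V => (v : A)) this
        exact Subtype.ext h3.symm
      · exact h2
    obtain ⟨g2, hg2⟩ := dvd_iff_isRoot.2 hr1
    have hder : (derivative g).eval (⟨i.1, hi⟩ : V) =
        ((⟨i.1, hi⟩ : V) - ⟨j.1, hj⟩) * g2.eval ⟨i.1, hi⟩ := by
      rw [hg1, derivative_mul, hg2]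
      simp
    have hbz : (Q.map (Int.castRingHom V)).eval (⟨i.1, hi⟩ : V) *
        (derivative g).eval (⟨i.1, hi⟩ : V) = (N : V) := by
      have h1 := congrArg (fun p : ℤ[X] => (p.map (Int.castRingHom V)).eval (⟨i.1, hi⟩ : V)) hPQ
      simp only [Polynomial.map_add, Polynomial.map_mul, eval_add, eval_mul, map_C, eval_C] at h1
      rw [← hgdef, (hr i hi : g.eval _ = 0), mul_zero, zero_add, ← derivative_map, ← hgdef] at h1
      rw [h1]
      simp
    obtain ⟨hN0, hN1, hN2⟩ := hNU l V h
    rw [hder] at hbz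
    have hbz' : ((((Q.map (Int.castRingHom V)).eval (⟨i.1, hi⟩ : V) : V)) : A) *
        ((i.1 - j.1) * ((g2.eval (⟨i.1, hi⟩ : V) : V) : A)) = (N : A) := by
      have h1 := congrArg (Subtype.val : V → A) hbz
      push_cast at h1
      exact h1
    have hne : i.1 - j.1 ≠ 0 := by
      intro h0
      rw [h0, zero_mul, mul_zero] at hbz'
      exact hN0 hbz'.symm
    refine ⟨hne, sub_mem hi hj, ?_⟩
    have hinv : (i.1 - j.1)⁻¹ = ((((Q.map (Int.castRingHom V)).eval (⟨i.1, hi⟩ : V) : V)) : A) *
        ((g2.eval (⟨i.1, hi⟩ : V) : V) : A) * (N : A)⁻¹ := by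
      rw [← div_eq_mul_inv, eq_div_iff hN0, ← hbz']
      field_simp
    rw [hinv]
    exact mul_mem (mul_mem (Subtype.property _) (Subtype.property _)) hN2
  · -- the number of the zeros
    have e1 : f.map (Int.castRingHom A) = (f.map (Int.castRingHom ℚ)).map (algebraMap ℚ A) := by
      rw [Polynomial.map_map]
      congr 1
      exact RingHom.ext_int _ _
    have hsep : (f.map (Int.castRingHom A)).Separable := by
      rw [e1]
      exact hf.separable.map
    have hnd := nodup_roots hsep
    classical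
    unfold rts
    rw [Multiset.toFinset_card_of_nodup hnd]
    have h1 := splits_iff_card_roots.1 (IsAlgClosed.splits (f.map (Int.castRingHom A)))
    rw [h1, natDegree_map_eq_of_injective]
    exact Int.cast_injective

end Pool.Agent.Q182.SZ
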